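import Pool.Agent.Zk22.Eps.Inc

/-!
# From `L^p` bounds to volume bounds; interpolation
-/

set_option autoImplicit false

open Finset MeasureTheory
open scoped ENNReal Classical

namespace Pool.Agent.Zk22.Eps
open Pool.Agent.W46.KK (tube near_axis tube_isClosed)
open Pool.Agent.Y244.WR (TubeQ)

/-- The number of separated unit vectors. -/
theorem card_sep {n : ℕ} {δ : ℝ} (hδ : 0 < δ) (hδ1 : δ < 1) {ι : Type} [Fintype ι]
    (e : ι → EuclideanSpace ℝ (Fin (n + 1))) (he : ∀ i, ‖e i‖ = 1)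
    (hsep : ∀ i j, i ≠ j → δ ≤ ‖e i - e j‖) : (Fintype.card ι : ℝ) ≤ (4 / δ) ^ (n + 1) := by
  obtain ⟨V, hV⟩ : ∃ V, V = volume (Metric.ball (0 : EuclideanSpace ℝ (Fin (n + 1))) 1) := ⟨_, rfl⟩
  have hV0 : V ≠ 0 := by
    rw [hV]; exact (Metric.measure_ball_pos volume _ one_pos).ne'
  have hVt : V ≠ ⊤ := by rw [hV]; exact measure_ball_lt_top.ne
  have hball : ∀ (x : EuclideanSpace ℝ (Fin (n + 1))) (r : ℝ), 0 ≤ r →
      volume (Metric.ball x r) = ENNReal.ofReal (r ^ (n + 1)) * V := by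
    intro x r hr
    rw [Measure.addHaar_ball _ _ hr, finrank_euclideanSpace_fin, hV]
  have hdisj : ((Finset.univ : Finset ι) : Set ι).PairwiseDisjoint
      fun i => Metric.ball (e i) (δ / 2) := by
    intro i _ j _ hij
    apply Metric.ball_disjoint_ball
    rw [dist_eq_norm]
    have := hsep i j hij
    linarith
  have hsub : (⋃ i ∈ (Finset.univ : Finset ι), Metric.ball (e i) (δ / 2)) ⊆
      Metric.ball (0 : EuclideanSpace ℝ (Fin (n + 1))) 2 := by
    intro y hy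
    obtain ⟨i, _, hy⟩ := Set.mem_iUnion₂.1 hy
    rw [Metric.mem_ball, dist_eq_norm] at hy
    rw [Metric.mem_ball, dist_zero_right]
    calc ‖y‖ = ‖(y - e i) + e i‖ := by rw [sub_add_cancel]
      _ ≤ ‖y - e i‖ + ‖e i‖ := norm_add_le _ _
      _ < 2 := by rw [he i]; linarith
  have h1 : ∑ _i : ι, ENNReal.ofReal ((δ / 2) ^ (n + 1)) * V ≤
      ENNReal.ofReal (2 ^ (n + 1)) * V := by
    rw [← hball (0 : EuclideanSpace ℝ (Fin (n + 1))) 2 (by norm_num)]
    refine le_trans (le_of_eq ?_) (measure_mono hsub)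
    rw [measure_biUnion_finset hdisj fun i _ => measurableSet_ball]
    exact Finset.sum_congr rfl fun i _ => (hball _ _ (by positivity)).symm
  rw [Finset.sum_const, Finset.card_univ, nsmul_eq_mul, ← mul_assoc,
    ENNReal.mul_le_mul_iff_left hV0 hVt, ← ENNReal.ofReal_natCast,
    ← ENNReal.ofReal_mul (Nat.cast_nonneg _), ENNReal.ofReal_le_ofReal_iff (by positivity)] at h1
  have e1 : (4 / δ) ^ (n + 1) = 2 ^ (n + 1) / (δ / 2) ^ (n + 1) := by
    rw [← div_pow]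
    congr 1
    field_simp
    norm_num
  rw [e1, le_div_iff₀ (by positivity)]
  exact h1

/-- Log-convexity of the norms. -/
theorem lint_interp {α : Type*} [MeasurableSpace α] {μ : Measure α} {f : α → ℝ≥0∞}
    (hf : AEMeasurable f μ) {p q : ℝ} (hp : 1 < p) (hpq : p < q) :
    ∫⁻ x, f x ^ p ∂μ ≤ (∫⁻ x, f x ∂μ) ^ ((q - p) / (q - 1)) *
      (∫⁻ x, f x ^ q ∂μ) ^ ((p - 1) / (q - 1)) := by
  have hq1 : 0 < q - 1 := by linarith
  have hA : 0 < (q - p) / (q - 1) := div_pos (by linarith) hq1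
  have hB : 0 < (p - 1) / (q - 1) := div_pos (by linarith) hq1
  obtain ⟨θ, hθ⟩ : ∃ θ : ℝ, θ = (p - 1) / (q - 1) := ⟨_, rfl⟩
  obtain ⟨τ, hτ⟩ : ∃ τ : ℝ, τ = (q - p) / (q - 1) := ⟨_, rfl⟩
  rw [← hτ] at hA
  rw [← hθ] at hB
  rw [← hθ, ← hτ]
  have hsum : τ + θ = 1 := by rw [hθ, hτ]; field_simp; ring
  have hconj : (1 / τ).HolderConjugate (1 / θ) := by
    rw [Real.holderConjugate_iff]
    refine ⟨?_, ?_⟩
    · rw [lt_div_iff₀ hA]; linarith
    · rw [one_div, one_div, inv_inv, inv_inv, hsum]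
  have h := ENNReal.lintegral_mul_le_Lp_mul_Lq μ hconj (f := fun x => f x ^ τ)
    (g := fun x => f x ^ (q * θ)) (hf.pow_const _) (hf.pow_const _)
  have e1 : ∀ x, ((fun x => f x ^ τ) * fun x => f x ^ (q * θ)) x = f x ^ p := by
    intro x
    have hq0 : 0 ≤ q * θ := mul_nonneg (by linarith) hB.le
    rw [Pi.mul_apply, ← ENNReal.rpow_add_of_nonneg _ _ hA.le hq0]
    congr 1
    rw [hθ, hτ]
    field_simp
    ring
  have e2 : ∀ x, (f x ^ τ) ^ (1 / τ) = f x := by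
    intro x
    rw [← ENNReal.rpow_mul, mul_one_div_cancel hA.ne', ENNReal.rpow_one]
  have e3 : ∀ x, (f x ^ (q * θ)) ^ (1 / θ) = f x ^ q := by
    intro x
    rw [← ENNReal.rpow_mul]
    congr 1
    field_simp
  simp only [e1, e2, e3] at h
  rw [one_div, one_div, one_div, one_div, inv_inv, inv_inv] at h
  exact h

/-- The bound at the exponent `p` with a small loss from the bounds at the exponents `q > p`. -/
theorem lossy_of_lossless {d : ℕ} (hd : 1 ≤ d) {p : ℝ} (hp : 1 < p)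
    (h : ∀ q : ℝ, p < q → TubeQ d q) {ε : ℝ} (hε : 0 < ε) :
    ∃ C : ℝ, 0 < C ∧ ∀ δ : ℝ, 0 < δ → δ < 1 → ∀ (ι : Type) [Fintype ι]
    (a e : ι → EuclideanSpace ℝ (Fin (d + 1))), (∀ i, ‖e i‖ = 1) →
    (∀ i j, i ≠ j → δ ≤ ‖e i - e j‖) →
    ∫⁻ x, (∑ i, (tube δ (a i) (e i)).indicator (fun _ => (1 : ℝ≥0∞)) x) ^ p ≤
      ENNReal.ofReal (C * δ ^ (-ε) * (δ ^ (d : ℝ) * (Fintype.card ι : ℝ) ^ (p - 1 / (d : ℝ)))) := by
  have hdR : (1 : ℝ) ≤ d := by exact_mod_cast hd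
  have hd0 : (0 : ℝ) < d := by linarith
  obtain ⟨ν, hν⟩ : ∃ ν : ℝ, ν = ε * d * (p - 1) / (d + 1) := ⟨_, rfl⟩
  have hν0 : 0 < ν := by
    rw [hν]
    have : 0 < p - 1 := by linarith
    positivity
  obtain ⟨q, hq⟩ : ∃ q : ℝ, q = p + ν := ⟨_, rfl⟩
  have hpq : p < q := by linarith
  have hq1 : 0 < q - 1 := by linarith
  obtain ⟨C2, hC2, hT⟩ := h q hpq
  obtain ⟨τ, hτ⟩ : ∃ τ : ℝ, τ = (q - p) / (q - 1) := ⟨_, rfl⟩
  obtain ⟨θ, hθ⟩ : ∃ θ : ℝ, θ = (p - 1) / (q - 1) := ⟨_, rfl⟩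
  have hτ0 : 0 < τ := by rw [hτ]; exact div_pos (by linarith) hq1
  have hθ0 : 0 < θ := by rw [hθ]; exact div_pos (by linarith) hq1
  have hsum : τ + θ = 1 := by rw [hθ, hτ]; field_simp; ring
  have hτε : τ * (d + 1) / d ≤ ε := by
    rw [hτ]
    have h1 : (q - p) / (q - 1) ≤ ν / (p - 1) := by
      rw [hq, add_sub_cancel_left]
      apply div_le_div_of_nonneg_left hν0.le (by linarith) (by linarith)
    calc (q - p) / (q - 1) * (d + 1) / d ≤ ν / (p - 1) * (d + 1) / d := by gcongr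
      _ = ε := by
        rw [hν]
        have : p - 1 ≠ 0 := by linarith
        field_simp
  obtain ⟨C1, hC1⟩ : ∃ C1 : ℝ, C1 = Pool.Agent.Y254.Cv (d + 1) * 2 := ⟨_, rfl⟩
  have hC10 : 0 < C1 := by
    rw [hC1]
    have := Pool.Agent.Y254.Cv_pos (d + 1)
    positivity
  refine ⟨C1 ^ τ * C2 ^ θ * (4 : ℝ) ^ (τ * (d + 1) / d), by positivity, ?_⟩
  intro δ hδ hδ1 ι _ a e he hsep
  obtain ⟨N, hN⟩ : ∃ N : ℝ, N = (Fintype.card ι : ℝ) := ⟨_, rfl⟩
  have hN0 : 0 ≤ N := by rw [hN]; positivity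
  have hT' := hT δ hδ hδ1 ι a e he hsep
  rw [← hN] at hT' ⊢
  have hTm : ∀ i, MeasurableSet (tube δ (a i) (e i)) := fun i => (tube_isClosed _ _ _).measurableSet
  have hfm : Measurable fun x => ∑ i, (tube δ (a i) (e i)).indicator (fun _ => (1 : ℝ≥0∞)) x :=
    Finset.measurable_fun_sum _ fun i _ => measurable_const.indicator (hTm i)
  have h1 := lint_interp (μ := volume) hfm.aemeasurable hp hpq
  rw [← hτ, ← hθ] at h1
  have hint : ∫⁻ x, ∑ i, (tube δ (a i) (e i)).indicator (fun _ => (1 : ℝ≥0∞)) x ≤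
      ENNReal.ofReal (N * (C1 * δ ^ d)) := by
    rw [lintegral_finsetSum _ fun i _ => measurable_const.indicator (hTm i)]
    have h2 : ∀ i, ∫⁻ x, (tube δ (a i) (e i)).indicator (fun _ => (1 : ℝ≥0∞)) x ≤
        ENNReal.ofReal (C1 * δ ^ d) := by
      intro i
      rw [lintegral_indicator (hTm i), lintegral_const, one_mul, Measure.restrict_apply
        MeasurableSet.univ, Set.univ_inter, hC1]
      have := Pool.Agent.Y254.vol_tube (n := d + 1) (by omega) (a := a i) (he i) hδ hδ1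
      rw [Nat.add_sub_cancel] at this
      exact this
    refine (Finset.sum_le_sum fun i _ => h2 i).trans (le_of_eq ?_)
    rw [Finset.sum_const, Finset.card_univ, nsmul_eq_mul, hN,
      ENNReal.ofReal_mul (Nat.cast_nonneg _), ENNReal.ofReal_natCast]
  refine h1.trans ((mul_le_mul' (ENNReal.rpow_le_rpow hint hτ0.le)
    (ENNReal.rpow_le_rpow hT' hθ0.le)).trans ?_)
  rw [ENNReal.ofReal_rpow_of_nonneg (by positivity) hτ0.le,
    ENNReal.ofReal_rpow_of_nonneg (by positivity) hθ0.le, ← ENNReal.ofReal_mul (by positivity)]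
  apply ENNReal.ofReal_le_ofReal
  rcases hN0.eq_or_lt with hz | hpos
  · rw [← hz, zero_mul, Real.zero_rpow hτ0.ne', zero_mul]
    positivity
  have hcard : N ≤ (4 / δ) ^ (d + 1) := by
    rw [hN]; exact card_sep hδ hδ1 e he hsep
  have hNp : N ^ (τ / d) ≤ (4 : ℝ) ^ (τ * (d + 1) / d) * δ ^ (-ε) := by
    calc N ^ (τ / d) ≤ ((4 / δ) ^ (d + 1)) ^ (τ / d) :=
          Real.rpow_le_rpow hN0 hcard (by positivity)
      _ = (4 / δ) ^ (τ * (d + 1) / d) := by
          rw [← Real.rpow_natCast, ← Real.rpow_mul (by positivity)]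
          congr 1
          push_cast
          field_simp
      _ = (4 : ℝ) ^ (τ * (d + 1) / d) * δ ^ (-(τ * (d + 1) / d)) := by
          rw [Real.div_rpow (by norm_num) hδ.le, Real.rpow_neg hδ.le, div_eq_mul_inv]
      _ ≤ _ := by
          apply mul_le_mul_of_nonneg_left _ (by positivity)
          apply Real.rpow_le_rpow_of_exponent_ge hδ hδ1.le
          linarith
  rw [Real.mul_rpow hN0 (by positivity), Real.mul_rpow hC10.le (by positivity),
    Real.mul_rpow (by positivity) (by positivity), Real.mul_rpow hC2.le (by positivity),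
    ← Real.rpow_mul hN0, ← Real.rpow_natCast δ d, ← Real.rpow_mul hδ.le, ← Real.rpow_mul hδ.le]
  have e1 : N ^ τ * N ^ ((q - 1 / (d : ℝ)) * θ) = N ^ (τ / d) * N ^ (p - 1 / (d : ℝ)) := by
    rw [← Real.rpow_add hpos, ← Real.rpow_add hpos]
    congr 1
    have e2 : τ + q * θ = p := by
      rw [hτ, hθ]
      field_simp
      ring
    have e3 : θ / d = 1 / d - τ / d := by
      rw [← sub_div]
      congr 1
      linarith
    calc τ + (q - 1 / (d : ℝ)) * θ = (τ + q * θ) - θ / d := by ring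
      _ = _ := by rw [e2, e3]; ring
  have e4 : δ ^ ((d : ℝ) * τ) * δ ^ ((d : ℝ) * θ) = δ ^ (d : ℝ) := by
    rw [← Real.rpow_add hδ, ← mul_add, hsum, mul_one]
  calc N ^ τ * (C1 ^ τ * δ ^ ((d : ℝ) * τ)) *
        (C2 ^ θ * δ ^ ((d : ℝ) * θ) * N ^ ((q - 1 / (d : ℝ)) * θ)) =
      C1 ^ τ * C2 ^ θ * (δ ^ ((d : ℝ) * τ) * δ ^ ((d : ℝ) * θ)) *
        (N ^ τ * N ^ ((q - 1 / (d : ℝ)) * θ)) := by ring
    _ = C1 ^ τ * C2 ^ θ * δ ^ (d : ℝ) * (N ^ (τ / d) * N ^ (p - 1 / (d : ℝ))) := by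
      rw [e4, e1]
    _ ≤ C1 ^ τ * C2 ^ θ * δ ^ (d : ℝ) * (((4 : ℝ) ^ (τ * (d + 1) / d) * δ ^ (-ε)) *
        N ^ (p - 1 / (d : ℝ))) := by gcongr
    _ = _ := by ring

/-- From an `L^p` bound to a volume bound, `p = 1 + c / d`. -/
theorem vol_of_strong {d : ℕ} (hd : 1 ≤ d) {c : ℝ} (hc : 0 < c) :
    ∃ κ : ℝ, 0 < κ ∧ ∀ (δ B : ℝ), 0 < δ → δ < 1 → 0 < B → ∀ (ι : Type) [Fintype ι]
    (a e : ι → EuclideanSpace ℝ (Fin (d + 1))), (∀ i, ‖e i‖ = 1) →
    ∫⁻ x, (∑ i, (tube δ (a i) (e i)).indicator (fun _ => (1 : ℝ≥0∞)) x) ^ (1 + c / (d : ℝ)) ≤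
      ENNReal.ofReal (B * (δ ^ (d : ℝ) * (Fintype.card ι : ℝ) ^ (1 + c / (d : ℝ) - 1 / (d : ℝ)))) →
    ∀ E : Set (EuclideanSpace ℝ (Fin (d + 1))), MeasurableSet E → ∀ t : ℝ, 0 ≤ t →
      (∀ i, ENNReal.ofReal t * volume (tube δ (a i) (e i)) ≤
        volume (E ∩ tube δ (a i) (e i))) →
      ENNReal.ofReal (κ * B ^ (-((d : ℝ) / c)) * t ^ (1 + (d : ℝ) / c) *
        (Fintype.card ι : ℝ) ^ (1 / c) * δ ^ d) ≤ volume E := by
  have hdR : (1 : ℝ) ≤ d := by exact_mod_cast hd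
  have hd0 : (0 : ℝ) < d := by linarith
  obtain ⟨κ, hκ, hvol⟩ := Pool.Agent.W131.HM.VOL d
  refine ⟨κ ^ (1 + (d : ℝ) / c), by positivity, ?_⟩
  intro δ B hδ hδ1 hB ι _ a e he hL E hE t ht hlow
  obtain ⟨N, hN⟩ : ∃ N : ℝ, N = (Fintype.card ι : ℝ) := ⟨_, rfl⟩
  have hN0 : 0 ≤ N := by rw [hN]; positivity
  rw [← hN] at hL ⊢
  by_cases hEt : volume E = ⊤
  · rw [hEt]; exact le_top
  rcases hN0.eq_or_lt with hz | hNpos
  · rw [← hz, Real.zero_rpow (by positivity), mul_zero, zero_mul, ENNReal.ofReal_zero]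
    exact zero_le
  rcases ht.eq_or_lt with hz | htpos
  · rw [← hz, Real.zero_rpow (by positivity), mul_zero, zero_mul, zero_mul, ENNReal.ofReal_zero]
    exact zero_le
  obtain ⟨p, hp⟩ : ∃ p : ℝ, p = 1 + c / (d : ℝ) := ⟨_, rfl⟩
  have hcd : 0 < c / (d : ℝ) := by positivity
  have hp1 : 1 < p := by linarith
  have hp0 : 0 < p := by linarith
  rw [← hp] at hL
  have hTm : ∀ i, MeasurableSet (tube δ (a i) (e i)) := fun i => (tube_isClosed _ _ _).measurableSet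
  obtain ⟨F, hF⟩ : ∃ F : EuclideanSpace ℝ (Fin (d + 1)) → ℝ≥0∞,
    F = fun x => ∑ i, (tube δ (a i) (e i)).indicator (fun _ => (1 : ℝ≥0∞)) x := ⟨_, rfl⟩
  have hFm : Measurable F := by
    rw [hF]
    exact Finset.measurable_fun_sum _ fun i _ => measurable_const.indicator (hTm i)
  have hL' : ∫⁻ x, F x ^ p ≤ ENNReal.ofReal (B * (δ ^ (d : ℝ) * N ^ (p - 1 / (d : ℝ)))) := by
    rw [hF]; exact hL
  have hsum : ENNReal.ofReal (N * (t * (κ * δ ^ d))) ≤ ∫⁻ x in E, F x := by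
    have e1 : ∫⁻ x in E, F x = ∑ i, volume (E ∩ tube δ (a i) (e i)) := by
      rw [hF]
      beta_reduce
      rw [lintegral_finsetSum (Finset.univ : Finset ι)
        (f := fun (i : ι) x => (tube δ (a i) (e i)).indicator (fun _ => (1 : ℝ≥0∞)) x)
        fun i _ => measurable_const.indicator (hTm i)]
      refine Finset.sum_congr rfl fun i _ => ?_
      rw [lintegral_indicator (hTm i), lintegral_const, one_mul, Measure.restrict_apply
        MeasurableSet.univ, Set.univ_inter, Measure.restrict_apply (hTm i), Set.inter_comm]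
    rw [e1]
    calc ENNReal.ofReal (N * (t * (κ * δ ^ d))) = ∑ _i : ι, ENNReal.ofReal (t * (κ * δ ^ d)) := by
          rw [Finset.sum_const, Finset.card_univ, nsmul_eq_mul, hN,
            ENNReal.ofReal_mul (Nat.cast_nonneg _), ENNReal.ofReal_natCast]
      _ ≤ ∑ i, volume (E ∩ tube δ (a i) (e i)) := by
          refine Finset.sum_le_sum fun i _ => ?_
          refine le_trans ?_ (hlow i)
          rw [ENNReal.ofReal_mul ht]
          exact mul_le_mul' le_rfl (hvol (a i) (e i) δ (he i) hδ hδ1.le).1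
  have hconj : p.HolderConjugate (p / (p - 1)) := Real.HolderConjugate.conjExponent hp1
  have hhol := ENNReal.lintegral_mul_le_Lp_mul_Lq (volume.restrict E) hconj
    (f := F) (g := fun _ => 1) hFm.aemeasurable aemeasurable_const
  have e2 : (F * (fun _ => (1 : ℝ≥0∞)) : EuclideanSpace ℝ (Fin (d + 1)) → ℝ≥0∞) = F := by
    funext x
    rw [Pi.mul_apply, mul_one]
  rw [e2] at hhol
  have e3 : ∫⁻ _x in E, (1 : ℝ≥0∞) ^ (p / (p - 1)) = volume E := by
    rw [ENNReal.one_rpow, lintegral_const, one_mul, Measure.restrict_apply MeasurableSet.univ,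
      Set.univ_inter]
  rw [e3] at hhol
  have e4 : ∫⁻ x in E, F x ^ p ≤ ENNReal.ofReal (B * (δ ^ (d : ℝ) * N ^ (p - 1 / (d : ℝ)))) :=
    (setLIntegral_le_lintegral E _).trans hL'
  have e5 : 1 / (p / (p - 1)) = 1 - 1 / p := by
    have : p - 1 ≠ 0 := by linarith
    field_simp
  rw [e5] at hhol
  obtain ⟨v, hv⟩ : ∃ v : ℝ, v = (volume E).toReal := ⟨_, rfl⟩
  have hv0 : 0 ≤ v := by rw [hv]; exact ENNReal.toReal_nonneg
  have hvE : volume E = ENNReal.ofReal v := by rw [hv, ENNReal.ofReal_toReal hEt]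
  rw [hvE] at hhol ⊢
  have hpos : 0 < 1 - 1 / p := by
    rw [sub_pos, div_lt_one hp0]
    exact hp1
  have hreal : N * (t * (κ * δ ^ d)) ≤
      (B * (δ ^ (d : ℝ) * N ^ (p - 1 / (d : ℝ)))) ^ (1 / p) * v ^ (1 - 1 / p) := by
    rw [← ENNReal.ofReal_le_ofReal_iff (by positivity)]
    refine hsum.trans (hhol.trans ?_)
    rw [ENNReal.ofReal_mul (p := (B * (δ ^ (d : ℝ) * N ^ (p - 1 / (d : ℝ)))) ^ (1 / p))
      (by positivity), ← ENNReal.ofReal_rpow_of_nonneg (by positivity) (by positivity),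
      ← ENNReal.ofReal_rpow_of_nonneg hv0 hpos.le]
    exact mul_le_mul' (ENNReal.rpow_le_rpow e4 (by positivity)) le_rfl
  apply ENNReal.ofReal_le_ofReal
  -- raise to the power `p / (p - 1)`
  obtain ⟨r, hr⟩ : ∃ r : ℝ, r = 1 + (d : ℝ) / c := ⟨_, rfl⟩
  have hr0 : 0 < r := by rw [hr]; positivity
  have hrp : (1 - 1 / p) * r = 1 := by
    rw [hr, hp]
    field_simp
    ring
  have hrp2 : (1 / p) * r = (d : ℝ) / c := by
    rw [hr, hp]
    field_simp
    ring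
  have h6 := Real.rpow_le_rpow (by positivity) hreal hr0.le
  rw [Real.mul_rpow (by positivity) (by positivity), Real.mul_rpow (by positivity) (by positivity),
    Real.mul_rpow (x := (B * (δ ^ (d : ℝ) * N ^ (p - 1 / (d : ℝ)))) ^ (1 / p)) (by positivity)
      (by positivity), ← Real.rpow_mul hv0, hrp, Real.rpow_one, ← Real.rpow_mul (by positivity), hrp2,
    Real.mul_rpow hκ.le (by positivity),
    Real.mul_rpow hB.le (by positivity), Real.mul_rpow (by positivity) (by positivity),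
    ← Real.rpow_natCast δ d, ← Real.rpow_mul hδ.le, ← Real.rpow_mul hδ.le,
    ← Real.rpow_mul hN0] at h6
  rw [← Real.rpow_natCast δ d, ← hr]
  -- `N ^ r * (t ^ r * (κ ^ r * δ ^ (d r))) ≤ B ^ (d/c) * (δ ^ (d (d/c)) * N ^ (..)) * v`
  have hX : 0 < B ^ ((d : ℝ) / c) * (δ ^ ((d : ℝ) * ((d : ℝ) / c)) *
      N ^ ((p - 1 / (d : ℝ)) * ((d : ℝ) / c))) := by positivity
  have h7 := (div_le_iff₀' hX).2 h6
  refine le_trans (le_of_eq ?_) h7
  have g1 : N ^ r = N ^ (1 / c) * N ^ ((p - 1 / (d : ℝ)) * ((d : ℝ) / c)) := by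
    rw [← Real.rpow_add hNpos]
    congr 1
    rw [hr, hp]
    field_simp
    ring
  have g2 : δ ^ ((d : ℝ) * r) = δ ^ (d : ℝ) * δ ^ ((d : ℝ) * ((d : ℝ) / c)) := by
    rw [← Real.rpow_add hδ]
    congr 1
    rw [hr]
    ring
  rw [g1, g2, Real.rpow_neg hB.le]
  have k1 : B ^ ((d : ℝ) / c) ≠ 0 := by positivity
  have k2 : δ ^ ((d : ℝ) * ((d : ℝ) / c)) ≠ 0 := by positivity
  have k3 : N ^ ((p - 1 / (d : ℝ)) * ((d : ℝ) / c)) ≠ 0 := by positivity
  generalize N ^ ((p - 1 / (d : ℝ)) * ((d : ℝ) / c)) = n1 at *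
  generalize δ ^ ((d : ℝ) * ((d : ℝ) / c)) = n2 at *
  generalize B ^ ((d : ℝ) / c) = n3 at *
  field_simp

end Pool.Agent.Zk22.Eps
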