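import Pool.Agent.Zk22.Eps.Inc

/-!
# Incidences and entropy at one scale
-/

set_option autoImplicit false

open Finset MeasureTheory
open scoped ENNReal Classical

namespace Pool.Agent.Zk22.Eps
open Pool.Agent.W46.KK (tube near_axis tube_isClosed)
open Pool.Agent.W46.HD Pool.Agent.W904.AK Pool.Agent.Zk22.En

/-- The restricted incidence inequality with exponent `b` at the scale `n`. -/
def ResAt (d : ℕ) (b : ℝ) (n : ℕ) (K : ℝ) : Prop := ∀ (Ω : Type) [Fintype Ω]
  (A D : Ω → Fin d → ℝ), IsFam n D → ∀ (W : Finset Ω) (X : Finset (Fin n × (Fin d → ℤ))),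
    inc A D W X ≤ K * (n : ℝ) ^ ((d : ℝ) / (b + d)) * (W.card : ℝ) ^ (1 - 1 / (b + d)) *
      (X.card : ℝ) ^ (1 - (d : ℝ) / (b + d))

/-- Larger exponents. -/
theorem ResAt.mono {d : ℕ} (hd : 1 ≤ d) {c b : ℝ} (hc : 1 ≤ c) (hcb : c ≤ b) {n : ℕ} (hn : 1 ≤ n)
    {K : ℝ} (hK : 1 ≤ K) (h : ResAt d c n K) : ResAt d b n K := by
  intro Ω _ A D hfam W X
  have h1 := h Ω A D hfam W X
  have h2 := inc_le_mul A D W X
  have h0 := inc_nonneg A D W X
  have hdR : (1 : ℝ) ≤ d := by exact_mod_cast hd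
  have hnR : (1 : ℝ) ≤ n := by exact_mod_cast hn
  have hs : 0 < c + d := by linarith
  have hs' : 0 < b + d := by linarith
  rcases h0.eq_or_lt with hz | hpos
  · rw [← hz]; positivity
  obtain ⟨w, hw⟩ : ∃ w : ℝ, w = W.card := ⟨_, rfl⟩
  obtain ⟨x, hx⟩ : ∃ x : ℝ, x = X.card := ⟨_, rfl⟩
  rw [← hw, ← hx] at h1 h2
  rw [← hw, ← hx]
  generalize inc A D W X = I at *
  have hw0 : 0 < w := by
    rcases (show 0 ≤ w by rw [hw]; positivity).eq_or_lt with h3 | h3
    · rw [← h3, zero_mul] at h2; linarith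
    · exact h3
  have hx0 : 0 < x := by
    rcases (show 0 ≤ x by rw [hx]; positivity).eq_or_lt with h3 | h3
    · rw [← h3, mul_zero] at h2; linarith
    · exact h3
  have hK0 : 0 < K := by linarith
  have hn0 : (0 : ℝ) < n := by linarith
  obtain ⟨t, ht⟩ : ∃ t : ℝ, t = (c + d) / (b + d) := ⟨_, rfl⟩
  have ht0 : 0 < t := by rw [ht]; positivity
  have ht1 : t ≤ 1 := by rw [ht, div_le_one hs']; linarith
  have e0 : I = I ^ t * I ^ (1 - t) := by
    rw [← Real.rpow_add hpos, show t + (1 - t) = 1 by ring, Real.rpow_one]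
  rw [e0]
  have a1 : I ^ t ≤ (K * (n : ℝ) ^ ((d : ℝ) / (c + d)) * w ^ (1 - 1 / (c + d)) *
      x ^ (1 - (d : ℝ) / (c + d))) ^ t := Real.rpow_le_rpow hpos.le h1 ht0.le
  have a2 : I ^ (1 - t) ≤ (w * x) ^ (1 - t) := Real.rpow_le_rpow hpos.le h2 (by linarith)
  have hA : 0 ≤ K * (n : ℝ) ^ ((d : ℝ) / (c + d)) * w ^ (1 - 1 / (c + d)) *
      x ^ (1 - (d : ℝ) / (c + d)) := by positivity
  refine (mul_le_mul a1 a2 (by positivity) (by positivity)).trans ?_
  rw [Real.mul_rpow (by positivity) (by positivity), Real.mul_rpow (by positivity) (by positivity),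
    Real.mul_rpow (by positivity) (by positivity), Real.mul_rpow hw0.le hx0.le,
    ← Real.rpow_mul hn0.le, ← Real.rpow_mul hw0.le, ← Real.rpow_mul hx0.le]
  have hKt : K ^ t ≤ K := by
    calc K ^ t ≤ K ^ (1 : ℝ) := Real.rpow_le_rpow_of_exponent_le hK ht1
      _ = K := Real.rpow_one K
  have f1 : (d : ℝ) / (c + d) * t = d / (b + d) := by rw [ht]; field_simp
  have f2 : (1 - 1 / (c + d)) * t + (1 - t) = 1 - 1 / (b + d) := by rw [ht]; field_simp; ring
  have f3 : (1 - (d : ℝ) / (c + d)) * t + (1 - t) = 1 - d / (b + d) := by rw [ht]; field_simp; ring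
  rw [f1]
  calc K ^ t * (n : ℝ) ^ ((d : ℝ) / (b + d)) * w ^ ((1 - 1 / (c + d)) * t) *
        x ^ ((1 - (d : ℝ) / (c + d)) * t) * (w ^ (1 - t) * x ^ (1 - t)) =
      K ^ t * (n : ℝ) ^ ((d : ℝ) / (b + d)) * (w ^ ((1 - 1 / (c + d)) * t) * w ^ (1 - t)) *
        (x ^ ((1 - (d : ℝ) / (c + d)) * t) * x ^ (1 - t)) := by ring
    _ = K ^ t * (n : ℝ) ^ ((d : ℝ) / (b + d)) * w ^ (1 - 1 / (b + d)) *
        x ^ (1 - (d : ℝ) / (b + d)) := by
        rw [← Real.rpow_add hw0, ← Real.rpow_add hx0, f2, f3]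
    _ ≤ _ := by gcongr

/-- From the volume bound to the incidence inequality, at one scale. -/
theorem resAt_of_volAt {d : ℕ} (hd : 1 ≤ d) {b : ℝ} (hb : 1 ≤ b) {n : ℕ} (hn : 1 ≤ n) {κ0 : ℝ}
    (hκ0 : 0 < κ0) (h : VolAt d b (1 / (3 * (n : ℝ))) κ0) :
    ResAt d b n ((2 * (Nat.log 2 n + 1) * ((6 * ((d : ℝ) + 1)) ^ (d + 1)) ^ ((d : ℝ) / (b + d)) *
      κ0 ^ (-(b / (b + d)))) * Fintype.card (Fin d → ZMod (d + 2))) := by
  have hdR : (1 : ℝ) ≤ d := by exact_mod_cast hd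
  have hd0 : (0 : ℝ) < d := by linarith
  intro Ω _ A D hfam W X
  have hnR : (1 : ℝ) ≤ n := by exact_mod_cast hn
  have hn0 : (0 : ℝ) < n := by linarith
  obtain ⟨κ, hκ⟩ : ∃ κ : Ω → (Fin d → ZMod (d + 2)),
    κ = fun ω i => ((⌊(n : ℝ) * D ω i⌋ : ℤ) : ZMod (d + 2)) := ⟨_, rfl⟩
  have hpos : 0 ≤ 1 - 1 / (b + d) := by
    rw [sub_nonneg, div_le_one (by positivity)]
    linarith
  obtain ⟨K, hK⟩ : ∃ K : ℝ, K = 2 * (Nat.log 2 n + 1) *
    ((6 * ((d : ℝ) + 1)) ^ (d + 1)) ^ ((d : ℝ) / (b + d)) * κ0 ^ (-(b / (b + d))) := ⟨_, rfl⟩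
  have hK0 : 0 < K := by rw [hK]; positivity
  rw [← hK]
  have hcl : ∀ k : Fin d → ZMod (d + 2), inc A D (W.filter fun ω => κ ω = k) X ≤
      K * (n : ℝ) ^ ((d : ℝ) / (b + d)) * (W.card : ℝ) ^ (1 - 1 / (b + d)) *
      (X.card : ℝ) ^ (1 - (d : ℝ) / (b + d)) := by
    intro k
    refine (inc_class_at hd hb hn hκ0 h A D hfam.lo hfam.hi (W.filter fun ω => κ ω = k) ?_ X).trans ?_
    · intro ω hω ω' hω' hne
      rw [Finset.mem_filter] at hω hω'
      have hk : κ ω = κ ω' := hω.2.trans hω'.2.symm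
      have hex : ∃ i, ⌊(n : ℝ) * D ω i⌋ ≠ ⌊(n : ℝ) * D ω' i⌋ := by
        by_contra hcon
        push Not at hcon
        exact hne (hfam.inj ω ω' hcon)
      obtain ⟨i, hi⟩ := hex
      have hki := congrFun hk i
      rw [hκ] at hki
      have hdvd := (ZMod.intCast_eq_intCast_iff_dvd_sub _ _ _).1 hki
      obtain ⟨m, hm⟩ := hdvd
      have hm0 : m ≠ 0 := by
        rintro rfl
        apply hi
        rw [mul_zero] at hm
        omega
      have h1m : 1 ≤ |m| := Int.one_le_abs hm0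
      have habs : (d : ℝ) + 2 ≤ |((⌊(n : ℝ) * D ω' i⌋ : ℤ) : ℝ) - ((⌊(n : ℝ) * D ω i⌋ : ℤ) : ℝ)| := by
        have e3 : ((⌊(n : ℝ) * D ω' i⌋ : ℤ) : ℝ) - ((⌊(n : ℝ) * D ω i⌋ : ℤ) : ℝ) =
            ((d : ℝ) + 2) * m := by
          have := congrArg (Int.cast : ℤ → ℝ) hm
          push_cast at this
          exact this
        rw [e3, abs_mul, abs_of_pos (by positivity)]
        have : (1 : ℝ) ≤ |(m : ℝ)| := by exact_mod_cast h1m
        nlinarith
      have hD : (d : ℝ) + 1 ≤ |n * D ω i - n * D ω' i| := by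
        have f1 := Int.floor_le ((n : ℝ) * D ω i)
        have f2 := Int.lt_floor_add_one ((n : ℝ) * D ω i)
        have f3 := Int.floor_le ((n : ℝ) * D ω' i)
        have f4 := Int.lt_floor_add_one ((n : ℝ) * D ω' i)
        rcases abs_cases (((⌊(n : ℝ) * D ω' i⌋ : ℤ) : ℝ) - ((⌊(n : ℝ) * D ω i⌋ : ℤ) : ℝ)) with
          ⟨g1, _⟩ | ⟨g1, _⟩
        · rw [g1] at habs
          rw [le_abs]
          right
          linarith
        · rw [g1] at habs
          rw [le_abs]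
          left
          linarith
      have hD' : ((d : ℝ) + 1) / n ≤ |D ω i - D ω' i| := by
        rw [div_le_iff₀ hn0]
        have e4 : |D ω i - D ω' i| * n = |n * D ω i - n * D ω' i| := by
          rw [← mul_sub, abs_mul, abs_of_pos hn0, mul_comm]
        rw [e4]
        exact hD
      have hs := su_sep (hfam.lo ω) (hfam.hi ω) (hfam.lo ω') (hfam.hi ω') i
      have h5 : ((d : ℝ) + 1) / n ≤ 2 * (d + 1) * ‖su (D ω) - su (D ω')‖ := hD'.trans hs
      have h6 : 1 / (2 * (n : ℝ)) ≤ ‖su (D ω) - su (D ω')‖ := by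
        have e5 : 1 / (2 * (n : ℝ)) = (((d : ℝ) + 1) / n) / (2 * (d + 1)) := by
          field_simp
        rw [e5, div_le_iff₀ (by positivity)]
        linarith
      refine le_trans ?_ h6
      apply one_div_le_one_div_of_le (by positivity)
      linarith
    · have hc : ((W.filter fun ω => κ ω = k).card : ℝ) ≤ W.card := by
        exact_mod_cast Finset.card_filter_le _ _
      rw [← hK]
      gcongr
  have hsum : inc A D W X = ∑ k, inc A D (W.filter fun ω => κ ω = k) X := by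
    unfold inc
    rw [Finset.sum_fiberwise]
  rw [hsum]
  refine (Finset.sum_le_sum fun k _ => hcl k).trans (le_of_eq ?_)
  rw [Finset.sum_const, Finset.card_univ, nsmul_eq_mul]
  ring


/-- The entropy inequality at one scale from two restricted inequalities. -/
theorem orS_at {d : ℕ} (hd : 1 ≤ d) {b1 b b2 : ℝ} (h1 : 1 ≤ b1) (h12 : b1 < b) (h23 : b < b2) :
    ∃ S : ℝ, 0 < S ∧ ∀ (n : ℕ) (K : ℝ), 0 < K → ResAt d b1 n K → ResAt d b2 n K →
      ∀ (Ω : Type) [Fintype Ω] (A D : Ω → Fin d → ℝ), IsFam n D →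
        OrS n A D b d ((b + d) * max 0 (Real.log (8 * K * S))) := by
  have hdR : (1 : ℝ) ≤ d := by exact_mod_cast hd
  have hd0 : (0 : ℝ) < d := by linarith
  have hl2 : 0 < Real.log 2 := Real.log_pos (by norm_num)
  have hs1 : 0 < b1 + d := by linarith
  have hs : 0 < b + d := by linarith
  have hs2 : 0 < b2 + d := by linarith
  obtain ⟨g, hg⟩ : ∃ g : ℝ, g = min ((1 / (b1 + d) - 1 / (b + d)) * Real.log 2)
    ((1 / (b + d) - 1 / (b2 + d)) * Real.log 2) := ⟨_, rfl⟩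
  have hg0 : 0 < g := by
    rw [hg, lt_min_iff]
    have e1 : 1 / (b + d) < 1 / (b1 + d) := one_div_lt_one_div_of_lt hs1 (by linarith)
    have e2 : 1 / (b2 + d) < 1 / (b + d) := one_div_lt_one_div_of_lt hs (by linarith)
    exact ⟨mul_pos (by linarith) hl2, mul_pos (by linarith) hl2⟩
  have hg1 : g ≤ (1 / (b1 + d) - 1 / (b + d)) * Real.log 2 := hg ▸ min_le_left _ _
  have hg2 : g ≤ (1 / (b + d) - 1 / (b2 + d)) * Real.log 2 := hg ▸ min_le_right _ _
  obtain ⟨S, hS0, hS⟩ := geo_sum hg0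
  refine ⟨S, hS0, ?_⟩
  intro n K hK0 H1 H2 Ω _ A D hfam p hp
  have hn : 1 ≤ n := hfam.pos
  have hnR : (1 : ℝ) ≤ n := by exact_mod_cast hn
  have hn0 : (0 : ℝ) < n := by linarith
  obtain ⟨pt, hpt⟩ : ∃ pt : Ω × Fin n → Fin n × (Fin d → ℤ), pt = fun z => (z.2, cell A D z.2 z.1) :=
    ⟨_, rfl⟩
  obtain ⟨F, hF⟩ : ∃ F : Ω → ℝ, F = im p Prod.fst := ⟨_, rfl⟩
  obtain ⟨f, hf⟩ : ∃ f : Fin n × (Fin d → ℤ) → ℝ, f = im p pt := ⟨_, rfl⟩
  have hF0 : ∀ ω, 0 ≤ F ω := fun ω => hF ▸ im_nonneg hp _ _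
  have hF1 : ∀ ω, F ω ≤ 1 := fun ω => hF ▸ im_le_one hp _ _
  have hf0 : ∀ x, 0 ≤ f x := fun x => hf ▸ im_nonneg hp _ _
  have hf1 : ∀ x, f x ≤ 1 := fun x => hf ▸ im_le_one hp _ _
  have hFp : ∀ z, p z ≠ 0 → 0 < F z.1 := fun z hz => hF ▸ im_pos hp Prod.fst hz
  have hfp : ∀ z, p z ≠ 0 → 0 < f (pt z) := fun z hz => hf ▸ im_pos hp pt hz
  obtain ⟨SF, hSF⟩ : ∃ SF : Finset Ω, SF = Finset.univ.filter fun ω => F ω ≠ 0 := ⟨_, rfl⟩
  obtain ⟨Sf, hSf⟩ : ∃ Sf : Finset (Fin n × (Fin d → ℤ)),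
    Sf = (Finset.univ.image pt).filter fun x => f x ≠ 0 := ⟨_, rfl⟩
  obtain ⟨W, hW⟩ : ∃ W : ℕ → Finset Ω, W = fun i => SF.filter fun ω => lev (F ω) = i := ⟨_, rfl⟩
  obtain ⟨X, hX⟩ : ∃ X : ℕ → Finset (Fin n × (Fin d → ℤ)),
    X = fun i => Sf.filter fun x => lev (f x) = i := ⟨_, rfl⟩
  have hsF : ∑ ω ∈ SF, F ω ≤ 1 := by
    have h2 : ∑ ω, F ω = 1 := by rw [hF]; exact (hp.im Prod.fst).total
    rw [← h2]
    exact Finset.sum_le_sum_of_subset_of_nonneg (Finset.subset_univ _) fun ω _ _ => hF0 ω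
  have hsf : ∑ x ∈ Sf, f x ≤ 1 := by
    have h2 : ∑ x ∈ Finset.univ.image pt, f x = 1 := by
      rw [hf, ← hp.total]
      rw [← Finset.sum_fiberwise_of_maps_to (s := Finset.univ) (t := Finset.univ.image pt) (g := pt)
        (fun a ha => Finset.mem_image_of_mem _ ha) p]
      refine Finset.sum_congr rfl fun x _ => ?_
      rw [im_eq_sum, Finset.sum_filter]
      refine Finset.sum_congr rfl fun a _ => ?_
      by_cases h : pt a = x <;> simp [h]
    rw [← h2, hSf]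
    exact Finset.sum_le_sum_of_subset_of_nonneg (Finset.filter_subset _ _) fun x _ _ => hf0 x
  obtain ⟨w, hwd⟩ : ∃ w : ℕ → ℝ, w = fun i => ∑ ω ∈ W i, F ω := ⟨_, rfl⟩
  obtain ⟨x, hxd⟩ : ∃ x : ℕ → ℝ, x = fun i => ∑ y ∈ X i, f y := ⟨_, rfl⟩
  have hw0 : ∀ i, 0 ≤ w i := fun i => by rw [hwd]; exact Finset.sum_nonneg fun ω _ => hF0 ω
  have hx0 : ∀ i, 0 ≤ x i := fun i => by rw [hxd]; exact Finset.sum_nonneg fun y _ => hf0 y
  have hws : ∀ T : Finset ℕ, ∑ i ∈ T, w i ≤ 1 := fun T => by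
    rw [hwd, hW]; exact mass_le hF0 SF (fun ω => lev (F ω)) hsF T
  have hxs : ∀ T : Finset ℕ, ∑ i ∈ T, x i ≤ 1 := fun T => by
    rw [hxd, hX]; exact mass_le hf0 Sf (fun y => lev (f y)) hsf T
  obtain ⟨u, hu⟩ : ∃ u : Ω × Fin n → ℝ, u = fun z =>
    Real.exp (-(lev (F z.1) * Real.log 2 * (1 - 1 / (b + d)) +
      lev (f (pt z)) * Real.log 2 * (1 - d / (b + d)))) := ⟨_, rfl⟩
  have hupos : ∀ z, 0 < u z := fun z => by rw [hu]; exact Real.exp_pos _
  have hgib := gibbs hp (u := u) fun z _ => hupos z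
  obtain ⟨Z, hZ⟩ : ∃ Z, Z = Finset.univ.filter (fun z => p z ≠ 0) := ⟨_, rfl⟩
  rw [← hZ] at hgib
  have hZm : ∀ z, z ∈ Z ↔ p z ≠ 0 := fun z => by rw [hZ, Finset.mem_filter]; simp
  -- the sum of `u`
  have hsum : ∑ z ∈ Z, u z ≤ 8 * K * S * (n : ℝ) ^ ((d : ℝ) / (b + d)) := by
    obtain ⟨lv, hlv⟩ : ∃ lv : Ω × Fin n → ℕ × ℕ, lv = fun z => (lev (F z.1), lev (f (pt z))) :=
      ⟨_, rfl⟩
    rw [← Finset.sum_fiberwise_of_maps_to (s := Z) (t := Z.image lv) (g := lv)
        (fun a ha => Finset.mem_image_of_mem _ ha) u]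
    have hterm : ∀ y ∈ Z.image lv, ∑ z ∈ Z.filter (fun z => lv z = y), u z ≤
        4 * K * (n : ℝ) ^ ((d : ℝ) / (b + d)) * ((w y.1 + x y.2) *
          Real.exp (-(g * |((y.1 : ℝ) + d * y.2) - d * Real.log n / Real.log 2|))) := by
      intro y hy
      obtain ⟨z0, hz0, hz0y⟩ := Finset.mem_image.1 hy
      have hpz0 := (hZm z0).1 hz0
      have hWmem : z0.1 ∈ W y.1 := by
        rw [hW, Finset.mem_filter, hSF, Finset.mem_filter]
        refine ⟨⟨Finset.mem_univ _, (hFp z0 hpz0).ne'⟩, ?_⟩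
        rw [← hz0y, hlv]
      have hXmem : pt z0 ∈ X y.2 := by
        rw [hX, Finset.mem_filter, hSf, Finset.mem_filter]
        refine ⟨⟨Finset.mem_image_of_mem _ (Finset.mem_univ _), (hfp z0 hpz0).ne'⟩, ?_⟩
        rw [← hz0y, hlv]
      have hwy : 0 < w y.1 := by
        rw [hwd]
        exact lt_of_lt_of_le (hFp z0 hpz0)
          (Finset.single_le_sum (f := F) (fun ω _ => hF0 ω) hWmem)
      have hxy : 0 < x y.2 := by
        rw [hxd]
        exact lt_of_lt_of_le (hfp z0 hpz0)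
          (Finset.single_le_sum (f := f) (fun ω _ => hf0 ω) hXmem)
      have hwy1 : w y.1 ≤ 1 := by
        have := hws {y.1}
        rwa [Finset.sum_singleton] at this
      have hxy1 : x y.2 ≤ 1 := by
        have := hxs {y.2}
        rwa [Finset.sum_singleton] at this
      have hcW := card_le_lev F (W y.1) y.1 (by
        intro ω hω
        rw [hW, Finset.mem_filter, hSF, Finset.mem_filter] at hω
        exact ⟨lt_of_le_of_ne (hF0 ω) (Ne.symm hω.1.2), hω.2⟩)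
      have hcX := card_le_lev f (X y.2) y.2 (by
        intro ω hω
        rw [hX, Finset.mem_filter, hSf, Finset.mem_filter] at hω
        exact ⟨lt_of_le_of_ne (hf0 ω) (Ne.symm hω.1.2), hω.2⟩)
      have hu1 : ∀ z ∈ Z.filter (fun z => lv z = y), u z =
          Real.exp (-(y.1 * Real.log 2 * (1 - 1 / (b + d)) +
            y.2 * Real.log 2 * (1 - d / (b + d)))) := by
        intro z hz
        have h3 := (Finset.mem_filter.1 hz).2
        rw [hlv] at h3
        rw [hu, ← h3]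
      rw [Finset.sum_congr rfl hu1, Finset.sum_const, nsmul_eq_mul]
      have hcnt : ((Z.filter fun z => lv z = y).card : ℝ) ≤ inc A D (W y.1) (X y.2) := by
        rw [inc_eq]
        have : (Z.filter fun z => lv z = y) ⊆ Finset.univ.filter fun z : Ω × Fin n =>
            z.1 ∈ W y.1 ∧ (z.2, cell A D z.2 z.1) ∈ X y.2 := by
          intro z hz
          have hz1 := (Finset.mem_filter.1 hz).1
          have h3 := (Finset.mem_filter.1 hz).2
          have hpz := (hZm z).1 hz1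
          rw [hlv] at h3
          rw [Finset.mem_filter]
          refine ⟨Finset.mem_univ _, ?_, ?_⟩
          · rw [hW, Finset.mem_filter, hSF, Finset.mem_filter]
            exact ⟨⟨Finset.mem_univ _, (hFp z hpz).ne'⟩, by rw [← h3]⟩
          · have e : (z.2, cell A D z.2 z.1) = pt z := by rw [hpt]
            rw [e, hX, Finset.mem_filter, hSf, Finset.mem_filter]
            exact ⟨⟨Finset.mem_image_of_mem _ (Finset.mem_univ _), (hfp z hpz).ne'⟩, by rw [← h3]⟩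
        exact_mod_cast Finset.card_le_card this
      have hI1' := H1 Ω A D hfam (W y.1) (X y.2)
      have hI2' := H2 Ω A D hfam (W y.1) (X y.2)
      have hT := term2 hd h1 h12 h23 hn hK0 hwy hwy1 hxy hxy1 (Nat.cast_nonneg _) (Nat.cast_nonneg _)
        hg0.le hg1 hg2 rfl (by rw [hwd]; exact hcW) (by rw [hxd]; exact hcX) hI1' hI2'
      refine (mul_le_mul_of_nonneg_right hcnt (Real.exp_pos _).le).trans (hT.trans (le_of_eq ?_))
      ring
    refine (Finset.sum_le_sum hterm).trans ?_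
    rw [← Finset.mul_sum]
    have hls := level_sum hd (c := d * Real.log n / Real.log 2) hS w x hw0 hx0 hws hxs (Z.image lv)
      hS0.le
    calc 4 * K * (n : ℝ) ^ ((d : ℝ) / (b + d)) * _ ≤
        4 * K * (n : ℝ) ^ ((d : ℝ) / (b + d)) * (2 * S) :=
          mul_le_mul_of_nonneg_left hls (by positivity)
      _ = _ := by ring
  have hlogs : Real.log (∑ z ∈ Z, u z) ≤ max 0 (Real.log (8 * K * S)) + d / (b + d) * Real.log n := by
    rcases Z.eq_empty_or_nonempty with hE | hE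
    · rw [hE, Finset.sum_empty, Real.log_zero]
      have := Real.log_nonneg hnR
      positivity
    · have hpos : 0 < ∑ z ∈ Z, u z := Finset.sum_pos (fun z _ => hupos z) hE
      refine (Real.log_le_log hpos hsum).trans ?_
      rw [Real.log_mul (by positivity) (by positivity), Real.log_rpow hn0]
      have := le_max_right 0 (Real.log (8 * K * S))
      linarith
  -- the mean of `-log u`
  have hp1 : 0 ≤ 1 - 1 / (b + d) := by
    rw [sub_nonneg, div_le_one hs]; linarith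
  have hp2 : 0 ≤ 1 - (d : ℝ) / (b + d) := by
    rw [sub_nonneg, div_le_one hs]; linarith
  have hmean : ∑ z, p z * -Real.log (u z) ≤
      (1 - 1 / (b + d)) * H p Prod.fst + (1 - d / (b + d)) * H p pt := by
    unfold H
    rw [Finset.mul_sum, Finset.mul_sum, ← Finset.sum_add_distrib]
    refine Finset.sum_le_sum fun z _ => ?_
    by_cases hz : p z = 0
    · simp [hz]
    · have hpz : 0 < p z := lt_of_le_of_ne (hp.nonneg z) (Ne.symm hz)
      have a1 := lev_le (hFp z hz) (hF1 z.1)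
      have a2 := lev_le (hfp z hz) (hf1 (pt z))
      have e : -Real.log (u z) = lev (F z.1) * Real.log 2 * (1 - 1 / (b + d)) +
          lev (f (pt z)) * Real.log 2 * (1 - d / (b + d)) := by
        rw [hu]
        simp only
        rw [Real.log_exp, neg_neg]
      rw [e]
      have b1' := mul_le_mul_of_nonneg_right a1 hp1
      have b2' := mul_le_mul_of_nonneg_right a2 hp2
      have c1' := mul_le_mul_of_nonneg_left (add_le_add b1' b2') hpz.le
      rw [hF, hf] at c1'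
      rw [hF, hf]
      refine c1'.trans (le_of_eq ?_)
      ring
  have htot : H p id ≤ (1 - 1 / (b + d)) * H p Prod.fst + (1 - d / (b + d)) * H p pt +
      (max 0 (Real.log (8 * K * S)) + d / (b + d) * Real.log n) := by linarith
  have hmul := mul_le_mul_of_nonneg_left htot hs.le
  have e1 : (b + d) * ((1 - 1 / (b + d)) * H p Prod.fst + (1 - d / (b + d)) * H p pt +
      (max 0 (Real.log (8 * K * S)) + d / (b + d) * Real.log n)) =
      (b + d - 1) * H p Prod.fst + b * H p pt + (b + d) * max 0 (Real.log (8 * K * S)) +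
        d * Real.log n := by
    field_simp
    ring
  rw [e1] at hmul
  rw [gp_eq]
  unfold aa lam
  rw [hpt] at hmul
  linarith

end Pool.Agent.Zk22.Eps
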