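import Pool.Agent.Zk22.EntE
import Pool.Agent.W131.HM.CapVol

/-!
# From a volume bound at one scale to incidences of lines and cells
-/

set_option autoImplicit false

open Finset MeasureTheory Set
open scoped ENNReal Classical

namespace Pool.Agent.Zk22.Eps
open Pool.Agent.W46.KK (tube near_axis tube_isClosed)
open Pool.Agent.W46.HD Pool.Agent.W904.AK Pool.Agent.Zk22.En

/-- The volume bound at the scale `δ`, for pieces of volume at least `t δ ^ d`. -/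
def VolAt (d : ℕ) (c δ κ : ℝ) : Prop := ∀ (ι : Type) [Fintype ι]
  (a e : ι → EuclideanSpace ℝ (Fin (d + 1))), (∀ i, ‖e i‖ = 1) →
  (∀ i j, i ≠ j → δ ≤ ‖e i - e j‖) → ∀ E : Set (EuclideanSpace ℝ (Fin (d + 1))), MeasurableSet E →
  ∀ t : ℝ, 0 ≤ t → (∀ i, ENNReal.ofReal (t * δ ^ d) ≤ volume (E ∩ tube δ (a i) (e i))) →
  ENNReal.ofReal (κ * t ^ (1 + (d : ℝ) / c) * (Fintype.card ι : ℝ) ^ (1 / c) * δ ^ d) ≤ volume E

/-- The number of the points of `ω` in `X`. -/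
noncomputable def pts {Ω : Type} [Fintype Ω] {d n : ℕ} (A D : Ω → Fin d → ℝ)
    (X : Finset (Fin n × (Fin d → ℤ))) (ω : Ω) : ℕ :=
  (Finset.univ.filter fun j : Fin n => (j, cell A D j ω) ∈ X).card

theorem inc_pts {Ω : Type} [Fintype Ω] {d n : ℕ} (A D : Ω → Fin d → ℝ) (W : Finset Ω)
    (X : Finset (Fin n × (Fin d → ℤ))) : inc A D W X = ∑ ω ∈ W, (pts A D X ω : ℝ) := rfl

theorem pts_le {Ω : Type} [Fintype Ω] {d n : ℕ} (A D : Ω → Fin d → ℝ)
    (X : Finset (Fin n × (Fin d → ℤ))) (ω : Ω) : pts A D X ω ≤ n := by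
  refine (Finset.card_filter_le _ _).trans ?_
  rw [Finset.card_univ, Fintype.card_fin]

theorem pts_le_card {Ω : Type} [Fintype Ω] {d n : ℕ} (A D : Ω → Fin d → ℝ)
    (X : Finset (Fin n × (Fin d → ℤ))) (ω : Ω) : pts A D X ω ≤ X.card := by
  unfold pts
  refine Finset.card_le_card_of_injOn (fun j => (j, cell A D j ω)) ?_ ?_
  · intro j hj
    exact (Finset.mem_filter.1 hj).2
  · intro j _ j' _ h
    exact congrArg Prod.fst h

theorem inc_le_mul {Ω : Type} [Fintype Ω] {d n : ℕ} (A D : Ω → Fin d → ℝ) (W : Finset Ω)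
    (X : Finset (Fin n × (Fin d → ℤ))) : inc A D W X ≤ W.card * X.card := by
  rw [inc_pts]
  calc ∑ ω ∈ W, (pts A D X ω : ℝ) ≤ ∑ _ω ∈ W, (X.card : ℝ) :=
        Finset.sum_le_sum fun ω _ => by exact_mod_cast pts_le_card A D X ω
    _ = _ := by rw [Finset.sum_const, nsmul_eq_mul]

theorem inc_nonneg {Ω : Type} [Fintype Ω] {d n : ℕ} (A D : Ω → Fin d → ℝ) (W : Finset Ω)
    (X : Finset (Fin n × (Fin d → ℤ))) : 0 ≤ inc A D W X := by
  rw [inc_pts]
  exact Finset.sum_nonneg fun ω _ => Nat.cast_nonneg _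

/-- The set of the boxes of `X` and its intersections with the tubes. -/
theorem boxes {Ω : Type} [Fintype Ω] {d n : ℕ} (hn : 1 ≤ n) {A D : Ω → Fin d → ℝ}
    (h0 : ∀ ω i, 0 ≤ D ω i) (h1 : ∀ ω i, D ω i ≤ 1) (X : Finset (Fin n × (Fin d → ℤ))) :
    ∃ U : Set (EuclideanSpace ℝ (Fin (d + 1))), MeasurableSet U ∧
      volume U ≤ ENNReal.ofReal (X.card * (1 / (6 * ((d : ℝ) + 1) * n)) ^ (d + 1)) ∧
      ∀ ω, ENNReal.ofReal ((pts A D X ω : ℝ) * (1 / (6 * ((d : ℝ) + 1) * n)) ^ (d + 1)) ≤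
        volume (U ∩ tube (1 / (3 * (n : ℝ)))
          (WithLp.toLp 2 (Fin.cons 0 (fun k => A ω k / (6 * ((d : ℝ) + 1) * n)) :
            Fin (d + 1) → ℝ)) (su (D ω))) := by
  have hnR : (1 : ℝ) ≤ n := by exact_mod_cast hn
  obtain ⟨L, hLe⟩ : ∃ L : ℝ, L = 6 * ((d : ℝ) + 1) * n := ⟨_, rfl⟩
  have hL : 0 < L := by rw [hLe]; positivity
  obtain ⟨δ, hδ⟩ : ∃ δ : ℝ, δ = 1 / (3 * (n : ℝ)) := ⟨_, rfl⟩
  obtain ⟨T, hT⟩ : ∃ T : Ω → Set (EuclideanSpace ℝ (Fin (d + 1))), T = fun ω =>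
    tube δ (WithLp.toLp 2 (Fin.cons 0 (fun k => A ω k / L) : Fin (d + 1) → ℝ)) (su (D ω)) := ⟨_, rfl⟩
  have hsub' : ∀ (ω : Ω) (j : Fin n),
      gbox L (Fin.cons ((j : ℕ) : ℤ) (cell A D j ω) : Fin (d + 1) → ℤ) ⊆ T ω := by
    intro ω j
    rw [hT, hLe, hδ]
    exact gbox_sub hn (h0 ω) (h1 ω) j
  rw [← hLe, ← hδ]
  have hTe : ∀ ω, tube δ (WithLp.toLp 2 (Fin.cons 0 (fun k => A ω k / L) : Fin (d + 1) → ℝ))
    (su (D ω)) = T ω := fun ω => by rw [hT]
  simp only [hTe]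
  obtain ⟨bx, hbx⟩ : ∃ bx : Fin n × (Fin d → ℤ) → Set (EuclideanSpace ℝ (Fin (d + 1))),
    bx = fun x => gbox L (Fin.cons ((x.1 : ℕ) : ℤ) x.2 : Fin (d + 1) → ℤ) := ⟨_, rfl⟩
  have hbm : ∀ x, MeasurableSet (bx x) := fun x => by rw [hbx]; exact gbox_meas hL _
  have hbv : ∀ x, volume (bx x) = ENNReal.ofReal ((1 / L) ^ (d + 1)) := fun x => by
    rw [hbx]; exact gbox_vol hL _
  refine ⟨⋃ x ∈ X, bx x, X.measurableSet_biUnion fun x _ => hbm x, ?_, ?_⟩
  · refine (measure_biUnion_finset_le X _).trans ?_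
    rw [Finset.sum_congr rfl fun x _ => hbv x, Finset.sum_const, nsmul_eq_mul,
      ENNReal.ofReal_mul (Nat.cast_nonneg _), ENNReal.ofReal_natCast]
  · intro ω
    unfold pts
    obtain ⟨J, hJ⟩ : ∃ J, J = Finset.univ.filter fun j : Fin n => (j, cell A D j ω) ∈ X := ⟨_, rfl⟩
    rw [← hJ]
    have hdis : (J : Set (Fin n)).PairwiseDisjoint fun j => bx (j, cell A D j ω) := by
      intro j _ j' _ hjj
      rw [Function.onFun, hbx]
      apply gbox_disj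
      intro e
      apply hjj
      have := congrFun e 0
      simp only [Fin.cons_zero] at this
      exact Fin.ext (by exact_mod_cast this)
    have hs : ∑ j ∈ J, volume (bx (j, cell A D j ω)) ≤ volume ((⋃ x ∈ X, bx x) ∩ T ω) := by
      rw [← measure_biUnion_finset hdis fun j _ => hbm _]
      refine measure_mono (Set.iUnion₂_subset fun j hj => Set.subset_inter ?_ ?_)
      · rw [hJ, Finset.mem_filter] at hj
        exact Set.subset_biUnion_of_mem (u := bx) (show (j, cell A D j ω) ∈ (X : Set _) from hj.2)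
      · rw [hbx]; exact hsub' ω j
    refine le_trans (le_of_eq ?_) hs
    rw [Finset.sum_congr rfl fun j _ => hbv _, Finset.sum_const, nsmul_eq_mul,
      ENNReal.ofReal_mul (Nat.cast_nonneg _), ENNReal.ofReal_natCast]

/-- The real computation for one level. -/
theorem level_real {d : ℕ} (hd : 1 ≤ d) {c κ V δd w x m : ℝ} (hc : 0 < c) (hκ : 0 < κ) (hV : 0 < V)
    (hδ : 0 < δd) (hw : 0 < w) (hx : 0 ≤ x) (hm : 0 < m)
    (h : κ * (m * V / δd) ^ (1 + (d : ℝ) / c) * w ^ (1 / c) * δd ≤ x * V) :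
    m * w ≤ (δd / V) ^ ((d : ℝ) / (c + d)) * κ ^ (-(c / (c + d))) *
      w ^ (1 - 1 / (c + d)) * x ^ (1 - (d : ℝ) / (c + d)) := by
  have hdR : (1 : ℝ) ≤ d := by exact_mod_cast hd
  have hd0 : (0 : ℝ) < d := by linarith
  have hs : 0 < c + d := by linarith
  obtain ⟨t, ht⟩ : ∃ t : ℝ, t = m * V / δd := ⟨_, rfl⟩
  have ht0 : 0 < t := by rw [ht]; positivity
  rw [← ht] at h
  have h1 : t ^ (1 + (d : ℝ) / c) * w ^ (1 / c) ≤ x * V / (κ * δd) := by
    rw [le_div_iff₀ (by positivity)]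
    linarith
  have h2 := Real.rpow_le_rpow (by positivity) h1 (show 0 ≤ c / (c + d) by positivity)
  rw [Real.mul_rpow (by positivity) (by positivity), ← Real.rpow_mul ht0.le,
    ← Real.rpow_mul hw.le] at h2
  have e1 : (1 + (d : ℝ) / c) * (c / (c + d)) = 1 := by field_simp
  have e2 : 1 / c * (c / (c + d)) = 1 / (c + d) := by field_simp
  rw [e1, e2, Real.rpow_one] at h2
  have e3 : x * V / (κ * δd) = x * (V / δd) * κ⁻¹ := by field_simp
  rw [e3, Real.mul_rpow (by positivity) (by positivity), Real.mul_rpow hx (by positivity),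
    Real.inv_rpow hκ.le, ← Real.rpow_neg hκ.le] at h2
  have e4 : c / (c + d) = 1 - (d : ℝ) / (c + d) := by field_simp; ring
  have hmt : m * w = (δd / V) * (t * w ^ (1 / (c + d))) * w ^ (1 - 1 / (c + d)) := by
    have hww : w ^ (1 / (c + d)) * w ^ (1 - 1 / (c + d)) = w := by
      rw [← Real.rpow_add hw]
      norm_num
    calc m * w = (δd / V) * t * w := by rw [ht]; field_simp
      _ = (δd / V) * t * (w ^ (1 / (c + d)) * w ^ (1 - 1 / (c + d))) := by rw [hww]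
      _ = _ := by ring
  rw [hmt]
  have hVV : (δd / V) * (V / δd) ^ (c / (c + d)) = (δd / V) ^ ((d : ℝ) / (c + d)) := by
    have e5 : V / δd = (δd / V)⁻¹ := by rw [inv_div]
    rw [e5, Real.inv_rpow (by positivity), ← Real.rpow_neg (by positivity)]
    have hp : 0 < δd / V := by positivity
    calc (δd / V) * (δd / V) ^ (-(c / (c + d))) = (δd / V) ^ (1 : ℝ) * (δd / V) ^ (-(c / (c + d))) := by
          rw [Real.rpow_one]
      _ = (δd / V) ^ (1 + -(c / (c + d))) := (Real.rpow_add hp _ _).symm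
      _ = _ := by
          congr 1
          field_simp
          ring
  calc (δd / V) * (t * w ^ (1 / (c + d))) * w ^ (1 - 1 / (c + d))
      ≤ (δd / V) * (x ^ (c / (c + d)) * (V / δd) ^ (c / (c + d)) * κ ^ (-(c / (c + d)))) *
          w ^ (1 - 1 / (c + d)) := by gcongr
    _ = ((δd / V) * (V / δd) ^ (c / (c + d))) * κ ^ (-(c / (c + d))) * w ^ (1 - 1 / (c + d)) *
          x ^ (c / (c + d)) := by ring
    _ = _ := by rw [hVV, ← e4]

/-- The incidence inequality for separated slopes, at one scale. -/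
theorem inc_class_at {d : ℕ} (hd : 1 ≤ d) {c : ℝ} (hc : 1 ≤ c) {n : ℕ} (hn : 1 ≤ n) {κ : ℝ}
    (hκ : 0 < κ) (h : VolAt d c (1 / (3 * (n : ℝ))) κ) {Ω : Type} [Fintype Ω]
    (A D : Ω → Fin d → ℝ) (h0 : ∀ ω i, 0 ≤ D ω i) (h1 : ∀ ω i, D ω i ≤ 1) (W : Finset Ω)
    (hsep : ∀ ω ∈ W, ∀ ω' ∈ W, ω ≠ ω' → 1 / (3 * (n : ℝ)) ≤ ‖su (D ω) - su (D ω')‖)
    (X : Finset (Fin n × (Fin d → ℤ))) :
    inc A D W X ≤ (2 * (Nat.log 2 n + 1) * ((6 * ((d : ℝ) + 1)) ^ (d + 1)) ^ ((d : ℝ) / (c + d)) *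
      κ ^ (-(c / (c + d)))) * (n : ℝ) ^ ((d : ℝ) / (c + d)) * (W.card : ℝ) ^ (1 - 1 / (c + d)) *
        (X.card : ℝ) ^ (1 - (d : ℝ) / (c + d)) := by
  have hdR : (1 : ℝ) ≤ d := by exact_mod_cast hd
  have hd0 : (0 : ℝ) < d := by linarith
  have hs : 0 < c + d := by linarith
  have hnR : (1 : ℝ) ≤ n := by exact_mod_cast hn
  have hn0 : (0 : ℝ) < n := by linarith
  obtain ⟨U, hUm, hUv, hUT⟩ := boxes hn h0 h1 X (A := A)
  obtain ⟨L, hLe⟩ : ∃ L : ℝ, L = 6 * ((d : ℝ) + 1) * n := ⟨_, rfl⟩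
  have hL : 0 < L := by rw [hLe]; positivity
  obtain ⟨V, hVe⟩ : ∃ V, V = (1 / L) ^ (d + 1) := ⟨_, rfl⟩
  have hV : 0 < V := by rw [hVe]; positivity
  rw [← hLe, ← hVe] at hUv
  simp only [← hLe, ← hVe] at hUT
  obtain ⟨δ, hδ⟩ : ∃ δ : ℝ, δ = 1 / (3 * (n : ℝ)) := ⟨_, rfl⟩
  rw [← hδ] at h hsep
  simp only [← hδ] at hUT
  have hδ0 : 0 < δ := by rw [hδ]; positivity
  have hδd : 0 < δ ^ d := by positivity
  have hpos1 : 0 ≤ 1 - 1 / (c + d) := by
    rw [sub_nonneg, div_le_one hs]; linarith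
  obtain ⟨R, hR⟩ : ∃ R : ℝ, R = (δ ^ d / V) ^ ((d : ℝ) / (c + d)) * κ ^ (-(c / (c + d))) *
      (W.card : ℝ) ^ (1 - 1 / (c + d)) * (X.card : ℝ) ^ (1 - (d : ℝ) / (c + d)) := ⟨_, rfl⟩
  have hlev : ∀ k ∈ Finset.range (Nat.log 2 n + 1),
      ∑ ω ∈ (W.filter fun ω => pts A D X ω ≠ 0).filter (fun ω => Nat.log 2 (pts A D X ω) = k),
        (pts A D X ω : ℝ) ≤ 2 * R := by
    intro k _
    obtain ⟨Wk, hWk⟩ : ∃ Wk, Wk = (W.filter fun ω => pts A D X ω ≠ 0).filter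
      (fun ω => Nat.log 2 (pts A D X ω) = k) := ⟨_, rfl⟩
    rw [← hWk]
    rcases Wk.eq_empty_or_nonempty with hE | hE
    · rw [hE, Finset.sum_empty, hR]
      positivity
    have hmem : ∀ ω ∈ Wk, ω ∈ W ∧ pts A D X ω ≠ 0 ∧ Nat.log 2 (pts A D X ω) = k := by
      intro ω hω
      rw [hWk, Finset.mem_filter, Finset.mem_filter] at hω
      exact ⟨hω.1.1, hω.1.2, hω.2⟩
    have hlo : ∀ ω ∈ Wk, (2 : ℝ) ^ k ≤ pts A D X ω := by
      intro ω hω
      obtain ⟨_, h2, h3⟩ := hmem ω hω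
      have := Nat.pow_log_le_self 2 h2
      rw [h3] at this
      exact_mod_cast this
    have hhi : ∀ ω ∈ Wk, (pts A D X ω : ℝ) ≤ 2 * 2 ^ k := by
      intro ω hω
      obtain ⟨_, h2, h3⟩ := hmem ω hω
      have := Nat.lt_pow_succ_log_self (b := 2) (by norm_num) (pts A D X ω)
      rw [h3] at this
      have h4 : pts A D X ω ≤ 2 * 2 ^ k := by
        rw [Nat.succ_eq_add_one, pow_succ] at this
        omega
      exact_mod_cast h4
    have hwpos : (0 : ℝ) < Wk.card := by exact_mod_cast hE.card_pos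
    have hvol := h Wk (fun i => WithLp.toLp 2 (Fin.cons 0 (fun k => A i k / L) :
      Fin (d + 1) → ℝ)) (fun i => su (D i)) (fun i => norm_su _)
      (fun i j hij => hsep i (hmem i i.2).1 j (hmem j j.2).1 fun e => hij (Subtype.ext e))
      U hUm (2 ^ k * V / δ ^ d) (by positivity) (by
        intro i
        refine le_trans ?_ (hUT i)
        apply ENNReal.ofReal_le_ofReal
        rw [div_mul_cancel₀ _ hδd.ne']
        exact mul_le_mul_of_nonneg_right (hlo i i.2) hV.le)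
    rw [Fintype.card_coe] at hvol
    have hvol2 := (ENNReal.ofReal_le_ofReal_iff (by positivity)).1 (hvol.trans hUv)
    have hreal := level_real hd (by linarith : 0 < c) hκ hV hδd hwpos (Nat.cast_nonneg _)
      (by positivity : (0 : ℝ) < 2 ^ k) hvol2
    have hcard : (Wk.card : ℝ) ≤ W.card := by
      have : Wk ⊆ W := fun ω hω => (hmem ω hω).1
      exact_mod_cast Finset.card_le_card this
    calc ∑ ω ∈ Wk, (pts A D X ω : ℝ) ≤ ∑ _ω ∈ Wk, (2 * 2 ^ k : ℝ) :=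
          Finset.sum_le_sum hhi
      _ = 2 * (2 ^ k * Wk.card) := by rw [Finset.sum_const, nsmul_eq_mul]; ring
      _ ≤ 2 * ((δ ^ d / V) ^ ((d : ℝ) / (c + d)) * κ ^ (-(c / (c + d))) *
          (Wk.card : ℝ) ^ (1 - 1 / (c + d)) * (X.card : ℝ) ^ (1 - (d : ℝ) / (c + d))) := by
          linarith
      _ ≤ 2 * R := by
          rw [hR]
          gcongr
  have hsplit : inc A D W X ≤ ∑ k ∈ Finset.range (Nat.log 2 n + 1), 2 * R := by
    rw [inc_pts]
    have e1 : ∑ ω ∈ W, (pts A D X ω : ℝ) = ∑ ω ∈ W.filter (fun ω => pts A D X ω ≠ 0),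
        (pts A D X ω : ℝ) := by
      rw [Finset.sum_filter]
      refine Finset.sum_congr rfl fun ω _ => ?_
      by_cases hz : pts A D X ω = 0
      · simp [hz]
      · simp [hz]
    rw [e1, ← Finset.sum_fiberwise_of_maps_to (s := W.filter fun ω => pts A D X ω ≠ 0)
      (t := Finset.range (Nat.log 2 n + 1)) (g := fun ω => Nat.log 2 (pts A D X ω)) (by
        intro ω _
        rw [Finset.mem_range]
        have := Nat.log_mono_right (b := 2) (pts_le A D X ω)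
        omega)]
    exact Finset.sum_le_sum hlev
  refine hsplit.trans ?_
  rw [Finset.sum_const, Finset.card_range, nsmul_eq_mul]
  have hq : δ ^ d / V ≤ (6 * ((d : ℝ) + 1)) ^ (d + 1) * n := by
    rw [hVe, hδ, hLe]
    have e3 : (1 / (3 * (n : ℝ))) ^ d / (1 / (6 * ((d : ℝ) + 1) * n)) ^ (d + 1) =
        ((6 * ((d : ℝ) + 1)) ^ (d + 1) * n) * (1 / 3) ^ d := by
      rw [div_pow, div_pow, mul_pow 3 (n : ℝ), mul_pow (6 * ((d : ℝ) + 1)) (n : ℝ), div_pow,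
        pow_succ (n : ℝ) d]
      field_simp
      simp
    rw [e3]
    apply mul_le_of_le_one_right (by positivity)
    exact pow_le_one₀ (by norm_num) (by norm_num)
  have hq2 : (δ ^ d / V) ^ ((d : ℝ) / (c + d)) ≤
      ((6 * ((d : ℝ) + 1)) ^ (d + 1)) ^ ((d : ℝ) / (c + d)) * (n : ℝ) ^ ((d : ℝ) / (c + d)) := by
    rw [← Real.mul_rpow (by positivity) (by positivity)]
    exact Real.rpow_le_rpow (by positivity) hq (by positivity)
  rw [hR]
  push_cast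
  calc ((Nat.log 2 n : ℝ) + 1) * (2 * ((δ ^ d / V) ^ ((d : ℝ) / (c + d)) * κ ^ (-(c / (c + d))) *
      (W.card : ℝ) ^ (1 - 1 / (c + d)) * (X.card : ℝ) ^ (1 - (d : ℝ) / (c + d))))
      ≤ ((Nat.log 2 n : ℝ) + 1) * (2 * ((((6 * ((d : ℝ) + 1)) ^ (d + 1)) ^ ((d : ℝ) / (c + d)) *
        (n : ℝ) ^ ((d : ℝ) / (c + d))) * κ ^ (-(c / (c + d))) *
      (W.card : ℝ) ^ (1 - 1 / (c + d)) * (X.card : ℝ) ^ (1 - (d : ℝ) / (c + d)))) := by
        gcongr
    _ = _ := by ring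

end Pool.Agent.Zk22.Eps
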