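import Pool.Agent.Zk22.Eps.Ent

/-!
# The volume bound with a loss gives the entropy inequality with a loss
-/

set_option autoImplicit false

open Finset MeasureTheory
open scoped ENNReal Classical

namespace Pool.Agent.Zk22.Eps
open Pool.Agent.W46.KK (tube near_axis tube_isClosed)
open Pool.Agent.W46.HD Pool.Agent.W904.AK Pool.Agent.Zk22.En

theorem ResAt.weaken {d : ℕ} {b : ℝ} {n : ℕ} {K K' : ℝ} (hK : K ≤ K') (h : ResAt d b n K) :
    ResAt d b n K' := by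
  intro Ω _ A D hfam W X
  refine (h Ω A D hfam W X).trans ?_
  gcongr

theorem natLog_bound {η : ℝ} (hη : 0 < η) {n : ℕ} (hn : 1 ≤ n) :
    (Nat.log 2 n : ℝ) + 1 ≤ (1 / (η * Real.log 2) + 1) * (n : ℝ) ^ η := by
  have hl2 : 0 < Real.log 2 := Real.log_pos (by norm_num)
  have hnR : (1 : ℝ) ≤ n := by exact_mod_cast hn
  have h1 : ((2 : ℝ)) ^ (Nat.log 2 n) ≤ n := by
    exact_mod_cast Nat.pow_log_le_self 2 (by omega)
  have h2 : (Nat.log 2 n : ℝ) * Real.log 2 ≤ Real.log n := by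
    have := Real.log_le_log (by positivity) h1
    rwa [Real.log_pow] at this
  have h3 : Real.log n ≤ (n : ℝ) ^ η / η := Real.log_le_rpow_div (by positivity) hη
  have h4 : (Nat.log 2 n : ℝ) ≤ 1 / (η * Real.log 2) * (n : ℝ) ^ η := by
    have h5 : (Nat.log 2 n : ℝ) ≤ Real.log n / Real.log 2 := by
      rw [le_div_iff₀ hl2]; exact h2
    refine h5.trans ?_
    rw [div_le_iff₀ hl2]
    refine h3.trans (le_of_eq ?_)
    field_simp
  have h6 : (1 : ℝ) ≤ (n : ℝ) ^ η := Real.one_le_rpow hnR hη.le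
  linarith

/-- **The volume bound at exponent `c` with the loss `δ ^ ε` gives the entropy inequality at all
larger exponents with a small loss.** -/
theorem allX_of_vol {d : ℕ} (hd : 1 ≤ d) {c : ℝ} (hc : 1 ≤ c)
    (h : ∀ ε : ℝ, 0 < ε → ∃ κ : ℝ, 0 < κ ∧ ∀ δ : ℝ, 0 < δ → δ < 1 → VolAt d c δ (κ * δ ^ ε))
    {b : ℝ} (hb : c < b) : AllX d b d := by
  intro ε hε
  have hdR : (1 : ℝ) ≤ d := by exact_mod_cast hd
  obtain ⟨S, hS, hor⟩ := orS_at hd (b1 := (c + b) / 2) (b := b) (b2 := b + 1) (by linarith)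
    (by linarith) (by linarith)
  have hbd : 0 < b + d := by linarith
  have hcd : 0 < c + d := by linarith
  obtain ⟨η, hη⟩ : ∃ η : ℝ, η = ε / (2 * (b + d)) := ⟨_, rfl⟩
  have hη0 : 0 < η := by rw [hη]; positivity
  obtain ⟨κ, hκ, hvol⟩ := h η hη0
  obtain ⟨B, hB⟩ : ∃ B : ℝ, B = 2 * ((6 * ((d : ℝ) + 1)) ^ (d + 1)) ^ ((d : ℝ) / (c + d)) *
    Fintype.card (Fin d → ZMod (d + 2)) := ⟨_, rfl⟩
  have hB0 : 0 < B := by rw [hB]; positivity
  obtain ⟨C0, hC0⟩ : ∃ C0 : ℝ, C0 = B * (1 / (η * Real.log 2) + 1) *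
    (κ ^ (-(c / (c + d))) * (3 : ℝ) ^ η) := ⟨_, rfl⟩
  have hl2 : 0 < Real.log 2 := Real.log_pos (by norm_num)
  have hC00 : 0 < C0 := by rw [hC0]; positivity
  obtain ⟨K0, hK0⟩ : ∃ K0 : ℝ, K0 = max 1 C0 := ⟨_, rfl⟩
  have hK01 : 1 ≤ K0 := hK0 ▸ le_max_left _ _
  have hK0C : C0 ≤ K0 := hK0 ▸ le_max_right _ _
  refine ⟨(b + d) * max 0 (Real.log (8 * K0 * S)), by positivity, ?_⟩
  intro n Ω _ A D hfam
  have hn : 1 ≤ n := hfam.pos
  have hnR : (1 : ℝ) ≤ n := by exact_mod_cast hn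
  have hn0 : (0 : ℝ) < n := by linarith
  have hδ0 : 0 < 1 / (3 * (n : ℝ)) := by positivity
  have hδ1 : 1 / (3 * (n : ℝ)) < 1 := by
    rw [div_lt_one (by positivity)]; linarith
  have hκn : 0 < κ * (1 / (3 * (n : ℝ))) ^ η := by positivity
  have hres := resAt_of_volAt hd hc hn hκn (hvol _ hδ0 hδ1)
  have hn2 : (1 : ℝ) ≤ (n : ℝ) ^ (2 * η) := Real.one_le_rpow hnR (by positivity)
  have hle : (2 * ((Nat.log 2 n : ℝ) + 1) * ((6 * ((d : ℝ) + 1)) ^ (d + 1)) ^ ((d : ℝ) / (c + d)) *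
      (κ * (1 / (3 * (n : ℝ))) ^ η) ^ (-(c / (c + d)))) * Fintype.card (Fin d → ZMod (d + 2)) ≤
      K0 * (n : ℝ) ^ (2 * η) := by
    have e1 : (κ * (1 / (3 * (n : ℝ))) ^ η) ^ (-(c / (c + d))) ≤
        κ ^ (-(c / (c + d))) * ((3 : ℝ) ^ η * (n : ℝ) ^ η) := by
      rw [Real.mul_rpow hκ.le (by positivity), ← Real.mul_rpow (by norm_num) hn0.le,
        one_div, Real.inv_rpow (by positivity), Real.inv_rpow (by positivity),
        ← Real.rpow_neg (by positivity), neg_neg]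
      apply mul_le_mul_of_nonneg_left _ (by positivity)
      have h3n : (1 : ℝ) ≤ (3 * (n : ℝ)) ^ η := Real.one_le_rpow (by linarith) hη0.le
      calc ((3 * (n : ℝ)) ^ η) ^ (c / (c + d)) ≤ ((3 * (n : ℝ)) ^ η) ^ (1 : ℝ) := by
            apply Real.rpow_le_rpow_of_exponent_le h3n
            rw [div_le_one hcd]
            linarith
        _ = _ := Real.rpow_one _
    have e2 := natLog_bound hη0 hn
    have e3 : (n : ℝ) ^ (2 * η) = (n : ℝ) ^ η * (n : ℝ) ^ η := by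
      rw [← Real.rpow_add hn0]
      congr 1
      ring
    calc _ = B * ((Nat.log 2 n : ℝ) + 1) * (κ * (1 / (3 * (n : ℝ))) ^ η) ^ (-(c / (c + d))) := by
          rw [hB]; ring
      _ ≤ B * ((1 / (η * Real.log 2) + 1) * (n : ℝ) ^ η) *
          (κ ^ (-(c / (c + d))) * ((3 : ℝ) ^ η * (n : ℝ) ^ η)) := by gcongr
      _ = C0 * ((n : ℝ) ^ η * (n : ℝ) ^ η) := by rw [hC0]; ring
      _ ≤ K0 * ((n : ℝ) ^ η * (n : ℝ) ^ η) := by gcongr
      _ = _ := by rw [e3]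
  have hres' := hres.weaken hle
  have hK1 : 1 ≤ K0 * (n : ℝ) ^ (2 * η) := one_le_mul_of_one_le_of_one_le hK01 hn2
  have hor' := hor n (K0 * (n : ℝ) ^ (2 * η)) (by linarith)
    (hres'.mono hd hc (by linarith) hn hK1) (hres'.mono hd hc (by linarith) hn hK1) Ω A D hfam
  intro p hp
  refine (hor' p hp).trans ?_
  have hlog : max 0 (Real.log (8 * (K0 * (n : ℝ) ^ (2 * η)) * S)) ≤
      max 0 (Real.log (8 * K0 * S)) + 2 * η * Real.log n := by
    have e4 : 8 * (K0 * (n : ℝ) ^ (2 * η)) * S = (8 * K0 * S) * (n : ℝ) ^ (2 * η) := by ring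
    have hln : 0 ≤ Real.log n := Real.log_nonneg hnR
    rw [e4, Real.log_mul (by positivity) (by positivity), Real.log_rpow hn0]
    apply max_le
    · positivity
    · have := le_max_right 0 (Real.log (8 * K0 * S))
      linarith
  have hmul := mul_le_mul_of_nonneg_left hlog hbd.le
  have e5 : (b + d) * (2 * η * Real.log n) = ε * Real.log n := by
    rw [hη]; field_simp
  rw [mul_add, e5] at hmul
  linarith

end Pool.Agent.Zk22.Eps
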